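import Pool.Agent.PackIndex.Core

/-!
# Horofunction boundaries of groups of exponential growth
-/

namespace Pool.Agent.Horo

universe u

/-- the properties of word length functions used below -/
structure LenFun {G : Type u} [Group G] (L : G → ℕ) : Prop where
  fin : ∀ n, {x | L x ≤ n}.Finite
  one : L 1 = 0
  eq_one : ∀ x, L x = 0 → x = 1
  mul_le : ∀ x y, L (x * y) ≤ L x + L y
  inv : ∀ x, L x⁻¹ = L x
  geo : ∀ x k, k ≤ L x → ∃ y, L y = k ∧ L (y⁻¹ * x) + k = L x

variable {G : Type u} [Group G] {L : G → ℕ}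

/-- the normalised distance function to `x` -/
def bf (L : G → ℕ) (x : G) : G → ℤ := fun z => (L (z⁻¹ * x) : ℤ) - (L x : ℤ)

lemma bf_le (hL : LenFun L) (x z : G) : |bf L x z| ≤ L z := by
  unfold bf
  have h1 := hL.mul_le z⁻¹ x
  have h2 := hL.mul_le z (z⁻¹ * x)
  rw [hL.inv] at h1
  rw [mul_inv_cancel_left] at h2
  rw [abs_le]
  constructor <;> omega

/-- the points at which the series of `r ^ L` converges -/
def Conv (L : G → ℕ) (r : ℝ) : Prop := Summable fun x : G => r ^ L x

omit [Group G] in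
lemma Conv.mono {r r' : ℝ} (h : Conv L r) (h0 : 0 ≤ r') (hr : r' ≤ r) : Conv L r' :=
  Summable.of_nonneg_of_le (fun _ => pow_nonneg h0 _) (fun _ => pow_le_pow_left₀ h0 hr _) h

/-- the ball as a finset -/
noncomputable def ball (hL : LenFun L) (n : ℕ) : Finset G := (hL.fin n).toFinset

lemma mem_ball (hL : LenFun L) {n : ℕ} {x : G} : x ∈ ball hL n ↔ L x ≤ n := by
  unfold ball; simp

/-- the sphere as a finset -/
noncomputable def sph (hL : LenFun L) (n : ℕ) : Finset G := (ball hL n).filter fun x => L x = n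

lemma mem_sph (hL : LenFun L) {n : ℕ} {x : G} : x ∈ sph hL n ↔ L x = n := by
  unfold sph
  rw [Finset.mem_filter, mem_ball]
  constructor
  · exact fun h => h.2
  · exact fun h => ⟨h.le, h⟩

lemma conv_of_lt (hL : LenFun L) {n : ℕ} {r : ℝ} (hr : 0 < r)
    (h : ((sph hL n).card : ℝ) * r ^ n < 1) : Conv L r := by
  classical
  set q : ℝ := ((sph hL n).card : ℝ) * r ^ n with hq
  set T : ℝ := ∑ x ∈ ball hL n, r ^ L x with hT
  have hT0 : 0 ≤ T := Finset.sum_nonneg fun x _ => pow_nonneg hr.le _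
  have hW : ∀ M, ∑ x ∈ ball hL M, r ^ L x ≤ T / (1 - q) := by
    intro M
    set W : ℝ := ∑ x ∈ ball hL M, r ^ L x with hWdef
    have hsplit : W ≤ T + ∑ x ∈ (ball hL M).filter (fun x => n ≤ L x), r ^ L x := by
      rw [hWdef, ← Finset.sum_filter_add_sum_filter_not (ball hL M) (fun x => n ≤ L x), add_comm]
      refine add_le_add ?_ le_rfl
      refine Finset.sum_le_sum_of_subset_of_nonneg ?_ (fun x _ _ => pow_nonneg hr.le _)
      intro x hx
      rw [Finset.mem_filter] at hx
      rw [mem_ball]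
      omega
    have hgeo : ∀ x : G, ∃ y, n ≤ L x → L y = n ∧ L (y⁻¹ * x) + n = L x := by
      intro x
      by_cases hx : n ≤ L x
      · obtain ⟨y, hy⟩ := hL.geo x n hx
        exact ⟨y, fun _ => hy⟩
      · exact ⟨1, fun h => absurd h hx⟩
    choose y hy using hgeo
    have hbound : ∑ x ∈ (ball hL M).filter (fun x => n ≤ L x), r ^ L x ≤ q * W := by
      have h1 : ∑ p ∈ (sph hL n) ×ˢ (ball hL M), r ^ n * r ^ L p.2 = q * W := by
        rw [Finset.sum_product]
        simp only [← Finset.mul_sum]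
        rw [Finset.sum_const, nsmul_eq_mul, hq, hWdef]
        ring
      rw [← h1]
      have hinj : Set.InjOn (fun x => (y x, (y x)⁻¹ * x))
          ((ball hL M).filter (fun x => n ≤ L x) : Finset G) := by
        intro a _ b _ hab
        simp only [Prod.mk.injEq] at hab
        obtain ⟨h2, h3⟩ := hab
        rw [h2] at h3
        exact mul_left_cancel h3
      have h2 : ∑ x ∈ (ball hL M).filter (fun x => n ≤ L x), r ^ L x
          = ∑ p ∈ ((ball hL M).filter (fun x => n ≤ L x)).image (fun x => (y x, (y x)⁻¹ * x)),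
            r ^ n * r ^ L p.2 := by
        rw [Finset.sum_image hinj]
        refine Finset.sum_congr rfl fun x hx => ?_
        rw [Finset.mem_filter] at hx
        have := (hy x hx.2).2
        simp only
        rw [← pow_add, add_comm, this]
      rw [h2]
      refine Finset.sum_le_sum_of_subset_of_nonneg ?_ (fun p _ _ => by positivity)
      intro p hp
      obtain ⟨x, hx, rfl⟩ := Finset.mem_image.1 hp
      rw [Finset.mem_filter, mem_ball] at hx
      have := hy x hx.2
      rw [Finset.mem_product, mem_sph, mem_ball]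
      exact ⟨this.1, by simp only; omega⟩
    have hW1 : W * (1 - q) ≤ T := by linarith
    rw [le_div_iff₀ (by linarith)]
    exact hW1
  refine summable_of_sum_le (c := T / (1 - q)) (fun x => pow_nonneg hr.le _) fun Y => ?_
  refine (Finset.sum_le_sum_of_subset_of_nonneg ?_ (fun x _ _ => pow_nonneg hr.le _)).trans
    (hW (Y.sup L))
  intro x hx
  rw [mem_ball]
  exact Finset.le_sup hx

/-- the critical radius -/
lemma exists_critical (hL : LenFun L) {c C : ℝ} (hc : 1 < c)
    (hgrow : ∀ n : ℕ, c ^ n ≤ C * ((ball hL n).card : ℝ)) :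
    ∃ R : ℝ, 0 < R ∧ R < 1 ∧ ¬ Conv L R ∧ ∀ r, 0 < r → r < R → Conv L r := by
  classical
  let 𝓡 : Set ℝ := {r | 0 < r ∧ Conv L r}
  have hup : ∀ r ∈ 𝓡, r ≤ 1 / c := by
    intro r hr
    by_contra hcon
    push Not at hcon
    have hc0 : 0 < c := by linarith
    set r' := min r 1 with hr'
    have h1c : 1 / c < 1 := by rw [div_lt_one hc0]; exact hc
    have hr'1 : 1 / c < r' := lt_min hcon h1c
    have hr'0 : 0 < r' := lt_min hr.1 one_pos
    have hconv : Conv L r' := hr.2.mono hr'0.le (min_le_left _ _)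
    have hr'c : 1 < r' * c := by
      rw [div_lt_iff₀ hc0] at hr'1
      exact hr'1
    obtain ⟨n, hn⟩ := pow_unbounded_of_one_lt (|C| * ∑' x : G, r' ^ L x) hr'c
    have h1 : (r' * c) ^ n ≤ |C| * ∑ x ∈ ball hL n, r' ^ L x := by
      calc (r' * c) ^ n = r' ^ n * c ^ n := mul_pow _ _ _
        _ ≤ r' ^ n * (C * (ball hL n).card) :=
          mul_le_mul_of_nonneg_left (hgrow n) (pow_nonneg hr'0.le _)
        _ ≤ r' ^ n * (|C| * (ball hL n).card) := by
          refine mul_le_mul_of_nonneg_left ?_ (pow_nonneg hr'0.le _)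
          exact mul_le_mul_of_nonneg_right (le_abs_self C) (Nat.cast_nonneg _)
        _ = |C| * ∑ x ∈ ball hL n, r' ^ n := by rw [Finset.sum_const, nsmul_eq_mul]; ring
        _ ≤ _ := by
          refine mul_le_mul_of_nonneg_left ?_ (abs_nonneg C)
          refine Finset.sum_le_sum fun x hx => ?_
          exact pow_le_pow_of_le_one hr'0.le (min_le_right _ _) ((mem_ball hL).1 hx)
    have h2 := mul_le_mul_of_nonneg_left
      (hconv.sum_le_tsum (ball hL n) (fun x _ => pow_nonneg hr'0.le _)) (abs_nonneg C)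
    linarith
  have hbdd : BddAbove 𝓡 := ⟨1 / c, hup⟩
  have hne : 𝓡.Nonempty := by
    refine ⟨1 / (((sph hL 1).card : ℝ) + 1), by positivity, ?_⟩
    refine conv_of_lt hL (n := 1) (by positivity) ?_
    rw [pow_one, mul_one_div, div_lt_one (by positivity)]
    linarith
  set R := sSup 𝓡 with hR
  have hR1 : R ≤ 1 / c := csSup_le hne hup
  have hRlt : R < 1 := by
    refine lt_of_le_of_lt hR1 ?_
    rw [div_lt_one (by linarith)]
    exact hc
  have hR0 : 0 < R := by
    obtain ⟨r, hr⟩ := hne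
    exact lt_of_lt_of_le hr.1 (le_csSup hbdd hr)
  refine ⟨R, hR0, hRlt, ?_, ?_⟩
  · intro hconv
    -- some sphere sum is small
    have hsmall : ∃ n, 1 ≤ n ∧ ((sph hL n).card : ℝ) * R ^ n < 1 := by
      by_contra hcon
      push Not at hcon
      have h1 : ∀ N : ℕ, (N : ℝ) ≤ ∑ x ∈ ball hL N, R ^ L x := by
        intro N
        induction N with
        | zero => simpa using Finset.sum_nonneg fun x _ => pow_nonneg hR0.le _
        | succ N ih =>
          have h2 : ∑ x ∈ ball hL N, R ^ L x + ∑ x ∈ sph hL (N + 1), R ^ L x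
              ≤ ∑ x ∈ ball hL (N + 1), R ^ L x := by
            rw [← Finset.sum_union]
            · refine Finset.sum_le_sum_of_subset_of_nonneg ?_ (fun x _ _ => pow_nonneg hR0.le _)
              intro x hx
              rw [Finset.mem_union, mem_ball, mem_sph] at hx
              rw [mem_ball]
              omega
            · rw [Finset.disjoint_left]
              intro x hx hx'
              rw [mem_ball] at hx
              rw [mem_sph] at hx'
              omega
          have h3 : ∑ x ∈ sph hL (N + 1), R ^ L x = ((sph hL (N + 1)).card : ℝ) * R ^ (N + 1) := by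
            rw [Finset.sum_congr rfl (g := fun _ => R ^ (N + 1)), Finset.sum_const, nsmul_eq_mul]
            intro x hx
            rw [(mem_sph hL).1 hx]
          have h4 := hcon (N + 1) (by omega)
          push_cast
          linarith
      obtain ⟨N, hN⟩ := exists_nat_gt (∑' x : G, R ^ L x)
      have h2 := hconv.sum_le_tsum (ball hL N) (fun x _ => pow_nonneg hR0.le _)
      have h3 := h1 N
      linarith
    obtain ⟨n, -, hn⟩ := hsmall
    have hcont : Filter.Tendsto (fun r : ℝ => ((sph hL n).card : ℝ) * r ^ n) (nhdsWithin R (Set.Ioi R))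
        (nhds (((sph hL n).card : ℝ) * R ^ n)) := by
      have : Continuous fun r : ℝ => ((sph hL n).card : ℝ) * r ^ n := by fun_prop
      exact (this.tendsto R).mono_left nhdsWithin_le_nhds
    have hev := (hcont.eventually_lt_const hn).and self_mem_nhdsWithin
    obtain ⟨r, hr1, hr2⟩ := hev.exists
    have hrR : R < r := hr2
    have : r ∈ 𝓡 := ⟨hR0.trans hrR, conv_of_lt hL (hR0.trans hrR) hr1⟩
    have := le_csSup hbdd this
    linarith
  · intro r hr0 hrR
    obtain ⟨r', hr', hrr'⟩ := exists_lt_of_lt_csSup hne hrR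
    exact hr'.2.mono hr0.le hrr'.le

/-- the conformal finitely additive measure -/
lemma exists_conformal {R : ℝ} (hR0 : 0 < R)
    (hconv : ∀ r, 0 < r → r < R → Conv L r) :
    ∃ m : Set G → ℝ, (∀ A, 0 ≤ m A) ∧ m Set.univ = 1 ∧
      (∀ A B, Disjoint A B → m (A ∪ B) = m A + m B) ∧
      ∀ (g : G) (k : ℤ) (A : Set G), (∀ z ∈ A, (L (g⁻¹ * z) : ℤ) - L z = k) →
        m {x | g * x ∈ A} = R ^ k * m A := by
  classical
  let Z : ℝ → ℝ := fun r => ∑' x : G, r ^ L x
  let M : ℝ → Set G → ℝ := fun r A => (∑' x : G, if x ∈ A then r ^ L x else 0) / Z r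
  have hsum : ∀ r, 0 < r → r < R → ∀ A : Set G, Summable fun x : G => if x ∈ A then r ^ L x else 0 := by
    intro r h0 h1 A
    refine Summable.of_nonneg_of_le (fun x => ?_) (fun x => ?_) (hconv r h0 h1)
    · split_ifs
      · exact pow_nonneg h0.le _
      · exact le_rfl
    · split_ifs
      · exact le_rfl
      · exact pow_nonneg h0.le _
  have hZ : ∀ r, 0 < r → r < R → 0 < Z r := by
    intro r h0 h1
    exact (hconv r h0 h1).tsum_pos (fun x => pow_nonneg h0.le _) 1 (pow_pos h0 _)
  have hM0 : ∀ r, 0 < r → r < R → ∀ A, 0 ≤ M r A := by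
    intro r h0 h1 A
    refine div_nonneg (tsum_nonneg fun x => ?_) (hZ r h0 h1).le
    split_ifs
    · exact pow_nonneg h0.le _
    · exact le_rfl
  have hM1 : ∀ r, 0 < r → r < R → ∀ A, M r A ≤ 1 := by
    intro r h0 h1 A
    refine (div_le_one (hZ r h0 h1)).2 ?_
    refine Summable.tsum_le_tsum (fun x => ?_) (hsum r h0 h1 A) (hconv r h0 h1)
    split_ifs
    · exact le_rfl
    · exact pow_nonneg h0.le _
  have hMuniv : ∀ r, 0 < r → r < R → M r Set.univ = 1 := by
    intro r h0 h1
    have h2 : M r Set.univ = Z r / Z r := by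
      show _ / Z r = Z r / Z r
      congr 2
      funext x
      simp
    rw [h2]
    exact div_self (hZ r h0 h1).ne'
  have hMadd : ∀ r, 0 < r → r < R → ∀ A B, Disjoint A B → M r (A ∪ B) = M r A + M r B := by
    intro r h0 h1 A B hAB
    simp only [M]
    rw [← add_div, ← (hsum r h0 h1 A).tsum_add (hsum r h0 h1 B)]
    congr 2
    funext x
    by_cases hA : x ∈ A
    · have hB : x ∉ B := Set.disjoint_left.1 hAB hA
      simp [hA, hB]
    · by_cases hB : x ∈ B <;> simp [hA, hB]
  have hMg : ∀ r, 0 < r → r < R → ∀ (g : G) (k : ℤ) (A : Set G),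
      (∀ z ∈ A, (L (g⁻¹ * z) : ℤ) - L z = k) → M r {x | g * x ∈ A} = r ^ k * M r A := by
    intro r h0 h1 g k A hA
    show (∑' x : G, if g * x ∈ A then r ^ L x else 0) / Z r = r ^ k * (_ / Z r)
    rw [← mul_div_assoc, ← tsum_mul_left]
    congr 1
    rw [← (Equiv.mulLeft g).tsum_eq (fun z : G => r ^ k * if z ∈ A then r ^ L z else 0)]
    congr 1
    funext x
    show (if g * x ∈ A then r ^ L x else 0) = r ^ k * if g * x ∈ A then r ^ L (g * x) else 0
    by_cases hx : g * x ∈ A
    · rw [if_pos hx, if_pos hx]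
      have h2 := hA _ hx
      rw [inv_mul_cancel_left] at h2
      rw [← zpow_natCast, ← zpow_natCast, ← zpow_add₀ h0.ne']
      congr 1
      omega
    · rw [if_neg hx, if_neg hx, mul_zero]
  -- the limit
  let 𝒰 : Ultrafilter ℝ := Ultrafilter.of (nhdsWithin R (Set.Iio R))
  have h𝒰 : (𝒰 : Filter ℝ) ≤ nhdsWithin R (Set.Iio R) := Ultrafilter.of_le _
  have hev : ∀ᶠ r in (𝒰 : Filter ℝ), 0 < r ∧ r < R := by
    apply h𝒰
    have h1 : ∀ᶠ r in nhdsWithin R (Set.Iio R), 0 < r :=
      nhdsWithin_le_nhds (lt_mem_nhds hR0)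
    exact h1.and self_mem_nhdsWithin
  have hlim : ∀ A, ∃ l : ℝ, 0 ≤ l ∧ Filter.Tendsto (fun r => M r A) 𝒰 (nhds l) := by
    intro A
    obtain ⟨l, hl, hl'⟩ := (isCompact_Icc (a := (0 : ℝ)) (b := 1)).ultrafilter_le_nhds
      (𝒰.map (fun r => M r A)) (by
        rw [Filter.le_principal_iff]
        refine Filter.mem_map.2 ?_
        filter_upwards [hev] with r hr
        exact ⟨hM0 r hr.1 hr.2 A, hM1 r hr.1 hr.2 A⟩)
    exact ⟨l, hl.1, hl'⟩
  choose m hm0 hm using hlim
  refine ⟨m, hm0, ?_, ?_, ?_⟩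
  · refine tendsto_nhds_unique (hm Set.univ) ?_
    refine Filter.Tendsto.congr' ?_ tendsto_const_nhds
    filter_upwards [hev] with r hr
    exact (hMuniv r hr.1 hr.2).symm
  · intro A B hAB
    refine tendsto_nhds_unique (hm (A ∪ B)) ?_
    refine Filter.Tendsto.congr' ?_ ((hm A).add (hm B))
    filter_upwards [hev] with r hr
    exact (hMadd r hr.1 hr.2 A B hAB).symm
  · intro g k A hA
    refine tendsto_nhds_unique (hm {x | g * x ∈ A}) ?_
    have h1 : Filter.Tendsto (fun r : ℝ => r ^ k) 𝒰 (nhds (R ^ k)) := by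
      have : ContinuousAt (fun r : ℝ => r ^ k) R := continuousAt_zpow₀ R k (Or.inl hR0.ne')
      exact this.tendsto.mono_left (h𝒰.trans nhdsWithin_le_nhds)
    refine Filter.Tendsto.congr' ?_ (h1.mul (hm A))
    filter_upwards [hev] with r hr
    exact (hMg r hr.1 hr.2 g k A hA).symm

/-- the core: for exponential growth the closure of the normalised distance functions is
uncountable -/
lemma core (hL : LenFun L) {c C : ℝ} (hc : 1 < c)
    (hgrow : ∀ n : ℕ, c ^ n ≤ C * ((ball hL n).card : ℝ)) :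
    ¬ (closure (Set.range (bf L)) \ Set.range (bf L)).Countable := by
  classical
  intro hcount
  obtain ⟨R, hR0, hR1, hRn, hRc⟩ := exists_critical hL hc hgrow
  obtain ⟨m, m0, m1, madd, mconf⟩ := exists_conformal hR0 hRc
  -- countability of the closure
  have hGc : Countable G := by
    have h1 : (Set.univ : Set G) = ⋃ n, {x | L x ≤ n} := by
      ext x
      simp only [Set.mem_univ, Set.mem_iUnion, true_iff]
      exact ⟨L x, by simp⟩
    rw [← Set.countable_univ_iff, h1]
    exact Set.countable_iUnion fun n => (hL.fin n).countable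
  have hX : (closure (Set.range (bf L))).Countable := by
    have : closure (Set.range (bf L)) ⊆ (closure (Set.range (bf L)) \ Set.range (bf L))
        ∪ Set.range (bf L) := by
      intro b hb
      by_cases h : b ∈ Set.range (bf L)
      · exact Or.inr h
      · exact Or.inl ⟨hb, h⟩
    exact (hcount.union (Set.countable_range _)).mono this
  have hcomp : IsCompact (closure (Set.range (bf L))) := by
    have h1 : IsCompact (Set.pi Set.univ fun z : G => Set.Icc (-(L z : ℤ)) (L z)) :=
      isCompact_univ_pi fun z => isCompact_Icc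
    refine h1.of_isClosed_subset isClosed_closure ?_
    refine closure_minimal ?_ h1.isClosed
    rintro _ ⟨x, rfl⟩ z _
    exact abs_le.1 (bf_le hL x z)
  have mmono : ∀ A B, A ⊆ B → m A ≤ m B := by
    intro A B hAB
    have h1 := madd A (B \ A) Set.disjoint_sdiff_right
    rw [Set.union_sdiff_cancel hAB] at h1
    linarith [m0 (B \ A)]
  have mle : ∀ A, m A ≤ 1 := fun A => m1 ▸ mmono A _ (Set.subset_univ A)
  have munion : ∀ A B, m (A ∪ B) ≤ m A + m B := by
    intro A B
    have h1 := madd A (B \ A) Set.disjoint_sdiff_right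
    rw [Set.union_sdiff_self] at h1
    linarith [mmono (B \ A) B Set.sdiff_subset]
  have mempty : m ∅ = 0 := by
    have h1 := madd ∅ ∅ (Set.disjoint_empty _)
    rw [Set.union_empty] at h1
    linarith
  have mbi : ∀ (t : Finset (G → ℤ)) (f : (G → ℤ) → Set G), m (⋃ b ∈ t, f b) ≤ ∑ b ∈ t, m (f b) := by
    intro t f
    induction t using Finset.induction_on with
    | empty => simp [mempty]
    | insert a s ha ih =>
      rw [Finset.set_biUnion_insert, Finset.sum_insert ha]
      exact (munion _ _).trans (add_le_add le_rfl ih)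
  -- an atom
  let N : (G → ℤ) → Finset G → Set G := fun b F => {x | ∀ z ∈ F, bf L x z = b z}
  have hatom : ∃ b ∈ closure (Set.range (bf L)), ∃ η : ℝ, 0 < η ∧ ∀ F, η ≤ m (N b F) := by
    by_contra hcon
    push Not at hcon
    obtain ⟨ε, hε0, hεs⟩ := hX.exists_pos_forall_sum_le (ε := 1 / 2) (by norm_num)
    have hF : ∀ b : G → ℤ, ∃ F : Finset G, b ∈ closure (Set.range (bf L)) → m (N b F) < ε b := by
      intro b
      by_cases hb : b ∈ closure (Set.range (bf L))
      · obtain ⟨F, hF⟩ := hcon b hb (ε b) (hε0 b)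
        exact ⟨F, fun _ => hF⟩
      · exact ⟨∅, fun h => absurd h hb⟩
    choose F hF using hF
    let U : (G → ℤ) → Set (G → ℤ) := fun b => {b' | ∀ z ∈ F b, b' z = b z}
    have hU : ∀ b, IsOpen (U b) := by
      intro b
      have : U b = ⋂ z ∈ F b, (fun b' : G → ℤ => b' z) ⁻¹' {b z} := by
        ext b'
        simp [U]
      rw [this]
      exact isOpen_biInter_finset fun z _ => (isOpen_discrete _).preimage (continuous_apply z)
    obtain ⟨t, ht, htc⟩ := hcomp.elim_nhds_subcover U
      (fun b _ => (hU b).mem_nhds (fun z _ => rfl))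
    have hcov : (Set.univ : Set G) ⊆ ⋃ b ∈ t, N b (F b) := by
      intro x _
      have h1 := htc (subset_closure ⟨x, rfl⟩ : bf L x ∈ closure (Set.range (bf L)))
      obtain ⟨b, hb, hbx⟩ := Set.mem_iUnion₂.1 h1
      exact Set.mem_iUnion₂.2 ⟨b, hb, hbx⟩
    have h1 : (1 : ℝ) ≤ ∑ b ∈ t, m (N b (F b)) := by
      rw [← m1]
      exact (mmono _ _ hcov).trans (mbi t fun b => N b (F b))
    have h2 : ∑ b ∈ t, m (N b (F b)) ≤ ∑ b ∈ t, ε b :=
      Finset.sum_le_sum fun b hb => (hF b (ht b hb)).le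
    have h3 := hεs t (fun b hb => ht b hb)
    linarith
  obtain ⟨b, hb, η, hη, hbη⟩ := hatom
  by_cases hbA : b ∈ Set.range (bf L)
  · -- an atom at a group element
    obtain ⟨x₀, rfl⟩ := hbA
    have hiso : N (bf L x₀) (ball hL (L x₀ + 1)) ⊆ {x₀} := by
      intro x hx
      by_contra hne
      have hne' : x₀⁻¹ * x ≠ 1 := by
        intro h
        apply hne
        show x = x₀
        rw [← inv_mul_eq_one]
        have : (x₀⁻¹ * x)⁻¹ = 1 := by rw [h, inv_one]
        simpa using this
      have hpos : 1 ≤ L (x₀⁻¹ * x) := by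
        by_contra h
        exact hne' (hL.eq_one _ (by omega))
      obtain ⟨y, hy1, hy2⟩ := hL.geo (x₀⁻¹ * x) 1 hpos
      have e1 := hx x₀ ((mem_ball hL).2 (by omega))
      have e2 := hx (x₀ * y) ((mem_ball hL).2 (by
        have := hL.mul_le x₀ y
        omega))
      unfold bf at e1 e2
      rw [inv_mul_cancel, hL.one] at e1
      have e3 : (x₀ * y)⁻¹ * x = y⁻¹ * (x₀⁻¹ * x) := by group
      have e4 : (x₀ * y)⁻¹ * x₀ = y⁻¹ := by group
      rw [e3, e4, hL.inv, hy1] at e2
      omega
    have hx₀ : η ≤ m {x₀} := (hbη _).trans (mmono _ _ hiso)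
    have hpt : ∀ y : G, m {y} = R ^ ((L y : ℤ) - L x₀) * m {x₀} := by
      intro y
      have h1 := mconf (x₀ * y⁻¹) ((L y : ℤ) - L x₀) {x₀} (by
        intro z hz
        rw [Set.mem_singleton_iff.1 hz]
        have : (x₀ * y⁻¹)⁻¹ * x₀ = y := by group
        rw [this])
      rw [← h1]
      congr 1
      ext x
      show x = y ↔ x₀ * y⁻¹ * x = x₀
      constructor
      · rintro rfl
        group
      · intro h
        have : y⁻¹ * x = 1 := by
          have h2 : x₀ * (y⁻¹ * x) = x₀ * 1 := by rw [← mul_assoc, h, mul_one]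
          exact mul_left_cancel h2
        rw [inv_mul_eq_one] at this
        exact this.symm
    apply hRn
    have hm0 : 0 < m {x₀} := lt_of_lt_of_le hη hx₀
    refine summable_of_sum_le (c := R ^ (L x₀ : ℤ) / m {x₀}) (fun x => pow_nonneg hR0.le _)
      fun Y => ?_
    have hYs : ∑ y ∈ Y, m {y} ≤ 1 := by
      have : ∀ Y : Finset G, ∑ y ∈ Y, m {y} = m (Y : Set G) := by
        intro Y
        induction Y using Finset.induction_on with
        | empty => simp [mempty]
        | insert a s ha ih =>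
          rw [Finset.sum_insert ha, ih, Finset.coe_insert, Set.insert_eq, madd]
          rw [Set.disjoint_singleton_left]
          exact fun h => ha (Finset.mem_coe.1 h)
      rw [this]
      exact mle _
    have h1 : ∀ y, R ^ L y = (R ^ (L x₀ : ℤ) / m {x₀}) * m {y} := by
      intro y
      rw [hpt y, zpow_sub₀ hR0.ne', zpow_natCast, zpow_natCast]
      have := pow_pos hR0 (L x₀)
      field_simp
    rw [Finset.sum_congr rfl fun y _ => h1 y, ← Finset.mul_sum]
    calc (R ^ (L x₀ : ℤ) / m {x₀}) * ∑ y ∈ Y, m {y} ≤ (R ^ (L x₀ : ℤ) / m {x₀}) * 1 :=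
          mul_le_mul_of_nonneg_left hYs (by positivity)
      _ = _ := mul_one _
  · -- an atom on the boundary
    have hdeep : ∀ n : ℕ, ∃ g : G, b g = -(n : ℤ) := by
      intro n
      have hz : ∀ x : G, ∃ z, bf L x z ≠ b z := by
        intro x
        by_contra h
        push Not at h
        exact hbA ⟨x, funext h⟩
      choose z hz using hz
      let F : Finset G := ball hL n ∪ (ball hL n).image z
      have hne : (N b F).Nonempty := by
        by_contra h
        rw [Set.not_nonempty_iff_eq_empty] at h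
        have := hbη F
        rw [h, mempty] at this
        linarith
      obtain ⟨x, hx⟩ := hne
      have hxn : n ≤ L x := by
        by_contra h
        push Not at h
        have h1 : z x ∈ F := Finset.mem_union_right _
          (Finset.mem_image_of_mem _ ((mem_ball hL).2 h.le))
        exact hz x (hx _ h1)
      obtain ⟨g, hg1, hg2⟩ := hL.geo x n hxn
      refine ⟨g, ?_⟩
      have h1 := hx g (Finset.mem_union_left _ ((mem_ball hL).2 hg1.le))
      rw [← h1]
      unfold bf
      omega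
    obtain ⟨n, hn⟩ := pow_unbounded_of_one_lt (1 / η) (one_lt_one_div hR0 hR1)
    obtain ⟨g, hg⟩ := hdeep n
    have h1 := mconf g (-(n : ℤ)) (N b {g}) (by
      intro x hx
      have := hx g (Finset.mem_singleton_self g)
      rw [hg] at this
      exact this)
    have h2 := mle {x | g * x ∈ N b {g}}
    rw [h1] at h2
    have h3 : R ^ (-(n : ℤ)) = (1 / R) ^ n := by
      rw [zpow_neg, zpow_natCast, one_div, inv_pow]
    rw [h3] at h2
    have h4 := hbη {g}
    have h5 : (1 / η) * η < (1 / R) ^ n * m (N b {g}) := by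
      calc (1 / η) * η < (1 / R) ^ n * η := mul_lt_mul_of_pos_right hn hη
        _ ≤ _ := mul_le_mul_of_nonneg_left h4 (by positivity)
    rw [one_div_mul_cancel hη.ne'] at h5
    linarith

/-! ## Word metrics -/

section graph

variable {S : Finset G} {Γ : SimpleGraph G}

lemma adj_iff (hΓ : Γ = SimpleGraph.fromRel (fun g h : G => g⁻¹ * h ∈ S)) (g h : G) :
    Γ.Adj g h ↔ g ≠ h ∧ (g⁻¹ * h ∈ S ∨ h⁻¹ * g ∈ S) := by
  rw [hΓ, SimpleGraph.fromRel_adj]

lemma adj_mul (hΓ : Γ = SimpleGraph.fromRel (fun g h : G => g⁻¹ * h ∈ S)) (a g h : G)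
    (hgh : Γ.Adj g h) : Γ.Adj (a * g) (a * h) := by
  rw [adj_iff hΓ] at hgh ⊢
  have h1 : (a * g)⁻¹ * (a * h) = g⁻¹ * h := by group
  have h2 : (a * h)⁻¹ * (a * g) = h⁻¹ * g := by group
  rw [h1, h2]
  exact ⟨fun h => hgh.1 (mul_left_cancel h), hgh.2⟩

lemma reach (hS : Subgroup.closure (S : Set G) = ⊤)
    (hΓ : Γ = SimpleGraph.fromRel (fun g h : G => g⁻¹ * h ∈ S)) (x : G) :
    ∀ g, Γ.Reachable g (g * x) := by
  have hx : x ∈ Subgroup.closure (S : Set G) := by rw [hS]; trivial
  refine Subgroup.closure_induction (p := fun x _ => ∀ g, Γ.Reachable g (g * x)) ?_ ?_ ?_ ?_ hx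
  · intro s hs g
    by_cases h1 : s = 1
    · rw [h1, mul_one]
    · refine SimpleGraph.Adj.reachable ?_
      rw [adj_iff hΓ]
      refine ⟨fun h => h1 ?_, Or.inl ?_⟩
      · have : g * 1 = g * s := by rw [mul_one]; exact h
        exact (mul_left_cancel this).symm
      · rw [inv_mul_cancel_left]
        exact hs
  · intro g
    rw [mul_one]
  · intro x y _ _ hx hy g
    rw [← mul_assoc]
    exact (hx g).trans (hy (g * x))
  · intro x _ hx g
    have := hx (g * x⁻¹)
    rw [inv_mul_cancel_right] at this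
    exact this.symm

lemma conn (hS : Subgroup.closure (S : Set G) = ⊤)
    (hΓ : Γ = SimpleGraph.fromRel (fun g h : G => g⁻¹ * h ∈ S)) : Γ.Connected := by
  have : Nonempty G := ⟨1⟩
  refine SimpleGraph.Connected.mk fun g h => ?_
  have := reach hS hΓ (g⁻¹ * h) g
  rwa [mul_inv_cancel_left] at this

lemma dist_mul_le (hS : Subgroup.closure (S : Set G) = ⊤)
    (hΓ : Γ = SimpleGraph.fromRel (fun g h : G => g⁻¹ * h ∈ S)) (a g h : G) :
    Γ.dist (a * g) (a * h) ≤ Γ.dist g h := by
  obtain ⟨p, hp⟩ := (conn hS hΓ).exists_walk_length_eq_dist g h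
  let f : Γ →g Γ := ⟨fun x => a * x, fun {x y} hxy => adj_mul hΓ a x y hxy⟩
  have := SimpleGraph.dist_le (p.map f)
  rw [SimpleGraph.Walk.length_map, hp] at this
  exact this

lemma dist_mul (hS : Subgroup.closure (S : Set G) = ⊤)
    (hΓ : Γ = SimpleGraph.fromRel (fun g h : G => g⁻¹ * h ∈ S)) (a g h : G) :
    Γ.dist (a * g) (a * h) = Γ.dist g h := by
  refine le_antisymm (dist_mul_le hS hΓ a g h) ?_
  have := dist_mul_le hS hΓ a⁻¹ (a * g) (a * h)
  rwa [inv_mul_cancel_left, inv_mul_cancel_left] at this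

lemma step (hS : Subgroup.closure (S : Set G) = ⊤)
    (hΓ : Γ = SimpleGraph.fromRel (fun g h : G => g⁻¹ * h ∈ S)) (g h : G) (n : ℕ)
    (hd : Γ.dist g h = n + 1) : ∃ g', Γ.Adj g g' ∧ Γ.dist g' h = n := by
  obtain ⟨p, hp⟩ := (conn hS hΓ).exists_walk_length_eq_dist g h
  cases p with
  | nil => rw [SimpleGraph.Walk.length_nil] at hp; omega
  | cons hadj q =>
    rename_i g'
    refine ⟨g', hadj, ?_⟩
    rw [SimpleGraph.Walk.length_cons] at hp
    have h1 := SimpleGraph.dist_le q
    have h2 := (conn hS hΓ).dist_triangle (u := g) (v := g') (w := h)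
    have h3 : Γ.dist g g' = 1 := SimpleGraph.dist_eq_one_iff_adj.2 hadj
    omega

lemma lenFun (hS : Subgroup.closure (S : Set G) = ⊤)
    (hΓ : Γ = SimpleGraph.fromRel (fun g h : G => g⁻¹ * h ∈ S)) :
    LenFun (fun x : G => Γ.dist 1 x) := by
  classical
  have hc := conn hS hΓ
  have hgeo : ∀ x k, k ≤ Γ.dist 1 x → ∃ y, Γ.dist 1 y = k ∧ Γ.dist y x + k = Γ.dist 1 x := by
    intro x k
    induction k with
    | zero =>
      intro _
      exact ⟨1, SimpleGraph.dist_self, by simp⟩
    | succ k ih =>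
      intro hk
      obtain ⟨y, hy1, hy2⟩ := ih (by omega)
      obtain ⟨y', hadj, hy'⟩ := step hS hΓ y x (Γ.dist 1 x - k - 1) (by omega)
      refine ⟨y', ?_, by omega⟩
      have h3 : Γ.dist y y' = 1 := SimpleGraph.dist_eq_one_iff_adj.2 hadj
      have h4 := hc.dist_triangle (u := 1) (v := y) (w := y')
      have h5 := hc.dist_triangle (u := 1) (v := y') (w := x)
      omega
  have hinv : ∀ y x : G, Γ.dist 1 (y⁻¹ * x) = Γ.dist y x := by
    intro y x
    have := dist_mul hS hΓ y⁻¹ y x
    rwa [inv_mul_cancel] at this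
  refine ⟨?_, SimpleGraph.dist_self, ?_, ?_, ?_, ?_⟩
  · intro n
    induction n with
    | zero =>
      refine (Set.finite_singleton (1 : G)).subset ?_
      intro x hx
      have h1 : Γ.dist 1 x = 0 := Nat.le_zero.1 hx
      exact ((hc.dist_eq_zero_iff).1 h1).symm
    | succ n ih =>
      let T : Set G := (S : Set G) ∪ (fun s => s⁻¹) '' (S : Set G)
      have hT : T.Finite := S.finite_toSet.union (S.finite_toSet.image _)
      refine (ih.union (ih.image2 (fun a b => a * b) hT)).subset ?_
      intro x hx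
      by_cases hxn : Γ.dist 1 x ≤ n
      · exact Or.inl hxn
      · right
        have hx' : Γ.dist 1 x = n + 1 := le_antisymm hx (by omega)
        obtain ⟨y, hy1, hy2⟩ := hgeo x n (by omega)
        have h1 : Γ.dist y x = 1 := by omega
        have h2 := SimpleGraph.dist_eq_one_iff_adj.1 h1
        rw [adj_iff hΓ] at h2
        refine ⟨y, hy1.le, y⁻¹ * x, ?_, by simp⟩
        rcases h2.2 with h | h
        · exact Or.inl h
        · refine Or.inr ⟨x⁻¹ * y, h, ?_⟩
          simp
  · intro x hx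
    exact ((hc.dist_eq_zero_iff).1 hx).symm
  · intro x y
    have h1 := hc.dist_triangle (u := 1) (v := x) (w := x * y)
    have h2 := dist_mul hS hΓ x 1 y
    rw [mul_one] at h2
    omega
  · intro x
    have h1 := dist_mul hS hΓ x 1 x⁻¹
    rw [mul_one, mul_inv_cancel] at h1
    rw [← h1, SimpleGraph.dist_comm]
  · intro x k hk
    obtain ⟨y, hy1, hy2⟩ := hgeo x k hk
    exact ⟨y, hy1, by rw [hinv]; exact hy2⟩

end graph

/-! ## Subexponential growth implies amenability -/

open Pool.Agent.PackIndex in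
lemma amenable_of_fun {Λ : (G → ℝ) → ℝ} (hΛ : IsMeanFun Λ) (hinv : ∀ h, InvUnder Λ h) :
    IsAmenable G := by
  classical
  let ind : Set G → G → ℝ := fun A x => if x ∈ A then 1 else 0
  have hind : ∀ A, Bdd (ind A) := by
    intro A
    refine ⟨1, fun x => ?_⟩
    show |if x ∈ A then (1 : ℝ) else 0| ≤ 1
    split_ifs <;> simp
  refine ⟨fun A => Λ (ind A), ?_, ?_, ?_, ?_⟩
  · intro A
    refine hΛ.nonneg _ (hind A) fun x => ?_
    show (0 : ℝ) ≤ if x ∈ A then 1 else 0
    split_ifs <;> norm_num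
  · show Λ (ind Set.univ) = 1
    have : ind Set.univ = fun _ => 1 := by
      funext x
      simp [ind]
    rw [this, hΛ.one]
  · intro A B hAB
    show Λ (ind (A ∪ B)) = Λ (ind A) + Λ (ind B)
    rw [← hΛ.add _ _ (hind A) (hind B)]
    congr 1
    funext x
    by_cases hA : x ∈ A
    · have hB : x ∉ B := Set.disjoint_left.1 hAB hA
      simp [ind, hA, hB]
    · by_cases hB : x ∈ B <;> simp [ind, hA, hB]
  · intro h A
    have h1 := hinv h (ind ((fun x => h * x) '' A)) (hind _)
    show Λ (ind ((fun x => h * x) '' A)) = Λ (ind A)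
    rw [← h1]
    congr 1
    funext x
    show (if h * x ∈ (fun x => h * x) '' A then (1 : ℝ) else 0) = if x ∈ A then 1 else 0
    have : h * x ∈ (fun x => h * x) '' A ↔ x ∈ A := by
      constructor
      · rintro ⟨y, hy, hyx⟩
        have : y = x := mul_left_cancel hyx
        rwa [← this]
      · intro hx
        exact ⟨x, hx, rfl⟩
    simp only [this]

lemma exists_slow (hL : LenFun L)
    (h : ¬ ∃ c C : ℝ, 1 < c ∧ ∀ n : ℕ, c ^ n ≤ C * ((ball hL n).card : ℝ)) (k : ℕ) (ε : ℝ)
    (hε : 0 < ε) :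
    ∃ n, ((ball hL (n + k)).card : ℝ) ≤ (1 + ε) * ((ball hL n).card : ℝ) := by
  by_contra hcon
  push Not at hcon
  rcases Nat.eq_zero_or_pos k with hk | hk
  · have := hcon 0
    rw [hk, add_zero] at this
    have h0 : (0 : ℝ) ≤ ((ball hL 0).card : ℝ) := Nat.cast_nonneg _
    nlinarith
  apply h
  have hball0 : (1 : ℝ) ≤ ((ball hL 0).card : ℝ) := by
    have : 1 ≤ (ball hL 0).card := Finset.card_pos.2 ⟨1, (mem_ball hL).2 hL.one.le⟩
    exact_mod_cast this
  have hq : ∀ q : ℕ, (1 + ε) ^ q ≤ ((ball hL (q * k)).card : ℝ) := by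
    intro q
    induction q with
    | zero => simpa using hball0
    | succ q ih =>
      have h1 := hcon (q * k)
      have h2 : (q + 1) * k = q * k + k := by ring
      rw [h2, pow_succ, mul_comm]
      have h3 : (1 + ε) * (1 + ε) ^ q ≤ (1 + ε) * ((ball hL (q * k)).card : ℝ) :=
        mul_le_mul_of_nonneg_left ih (by linarith)
      linarith
  set c : ℝ := (1 + ε) ^ ((1 : ℝ) / k) with hc
  have hk' : (0 : ℝ) < k := by exact_mod_cast hk
  have hc1 : 1 < c := Real.one_lt_rpow (by linarith) (by positivity)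
  have hck : c ^ k = 1 + ε := by
    rw [hc, ← Real.rpow_natCast, ← Real.rpow_mul (by linarith), one_div, inv_mul_cancel₀ hk'.ne',
      Real.rpow_one]
  refine ⟨c, 1 + ε, hc1, fun n => ?_⟩
  have hn : n = (n / k) * k + n % k := by
    have := Nat.div_add_mod n k
    rw [mul_comm] at this
    exact this.symm
  have hmod : n % k < k := Nat.mod_lt _ hk
  have h1 : c ^ (n % k) ≤ 1 + ε := by
    rw [← hck]
    exact pow_le_pow_right₀ hc1.le hmod.le
  have h2 : c ^ ((n / k) * k) = (1 + ε) ^ (n / k) := by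
    rw [mul_comm, pow_mul, hck]
  have h3 : ((ball hL ((n / k) * k)).card : ℝ) ≤ ((ball hL n).card : ℝ) := by
    have : (ball hL ((n / k) * k)).card ≤ (ball hL n).card := by
      refine Finset.card_le_card fun x hx => ?_
      rw [mem_ball] at hx ⊢
      have := Nat.div_mul_le_self n k
      omega
    exact_mod_cast this
  calc c ^ n = c ^ ((n / k) * k) * c ^ (n % k) := by rw [← pow_add, ← hn]
    _ = (1 + ε) ^ (n / k) * c ^ (n % k) := by rw [h2]
    _ ≤ (1 + ε) ^ (n / k) * (1 + ε) := mul_le_mul_of_nonneg_left h1 (by positivity)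
    _ = (1 + ε) * (1 + ε) ^ (n / k) := mul_comm _ _
    _ ≤ (1 + ε) * ((ball hL n).card : ℝ) :=
      mul_le_mul_of_nonneg_left ((hq _).trans h3) (by linarith)

open Pool.Agent.PackIndex in
lemma amenable_of_not_exp (hL : LenFun L)
    (h : ¬ ∃ c C : ℝ, 1 < c ∧ ∀ n : ℕ, c ^ n ≤ C * ((ball hL n).card : ℝ)) :
    IsAmenable G := by
  classical
  have hs : ∀ j : ℕ, ∃ n, ((ball hL (n + j)).card : ℝ)
      ≤ (1 + 1 / ((j : ℝ) + 1)) * ((ball hL n).card : ℝ) :=
    fun j => exists_slow hL h j _ (by positivity)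
  choose ν hν using hs
  let X : ℕ → Finset G := fun j => ball hL (ν j)
  have hXne : ∀ j, (X j).Nonempty := fun j => ⟨1, (mem_ball hL).2 (by rw [hL.one]; omega)⟩
  have hcard : ∀ j : ℕ, ∀ t : G, L t ≤ j →
      (((X j).image fun x => t * x) \ X j).card * ((j : ℝ) + 1) ≤ (X j).card := by
    intro j t ht
    have hsub : ((X j).image fun x => t * x) \ X j ⊆ ball hL (ν j + j) \ X j := by
      intro z hz
      rw [Finset.mem_sdiff] at hz ⊢
      refine ⟨?_, hz.2⟩
      obtain ⟨x, hx, rfl⟩ := Finset.mem_image.1 hz.1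
      have h1 := (mem_ball hL).1 hx
      have h2 := hL.mul_le t x
      rw [mem_ball]
      omega
    have h1 := Finset.card_le_card hsub
    have h2 : (ball hL (ν j + j) \ X j).card + (X j).card = (ball hL (ν j + j)).card := by
      refine Finset.card_sdiff_add_card_eq_card ?_
      intro x hx
      have := (mem_ball hL).1 hx
      rw [mem_ball]
      omega
    have h3 : ((((X j).image fun x => t * x) \ X j).card : ℝ)
        ≤ ((ball hL (ν j + j) \ X j).card : ℝ) := by exact_mod_cast h1
    have h4 : ((ball hL (ν j + j) \ X j).card : ℝ) + ((X j).card : ℝ)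
        = ((ball hL (ν j + j)).card : ℝ) := by exact_mod_cast h2
    have h5 := hν j
    have hj : (0 : ℝ) < (j : ℝ) + 1 := by positivity
    have h6 : ((((X j).image fun x => t * x) \ X j).card : ℝ)
        ≤ 1 / ((j : ℝ) + 1) * ((X j).card : ℝ) := by
      have : (1 + 1 / ((j : ℝ) + 1)) * ((ball hL (ν j)).card : ℝ)
          = ((X j).card : ℝ) + 1 / ((j : ℝ) + 1) * ((X j).card : ℝ) := by
        show _ = ((ball hL (ν j)).card : ℝ) + 1 / ((j : ℝ) + 1) * ((ball hL (ν j)).card : ℝ)
        ring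
      linarith
    rw [one_div, inv_mul_eq_div, le_div_iff₀ hj] at h6
    exact h6
  let J := ULift.{u} ℕ
  have hne : (Filter.comap (ULift.down : J → ℕ) Filter.atTop).NeBot :=
    Filter.comap_neBot_iff_frequently.2 (Filter.Eventually.frequently
      (Filter.Eventually.of_forall fun n => ⟨⟨n⟩, rfl⟩))
  let 𝒰 : Ultrafilter J := Ultrafilter.of (Filter.comap ULift.down Filter.atTop)
  have h𝒰 : (𝒰 : Filter J) ≤ Filter.comap ULift.down Filter.atTop := Ultrafilter.of_le _
  have htend : Filter.Tendsto (ULift.down : J → ℕ) 𝒰 Filter.atTop :=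
    Filter.tendsto_comap.mono_left h𝒰
  obtain ⟨Λ, hΛ, hinv⟩ := exists_lim 𝒰
    (fun j f => (∑ x ∈ X j.down, f x) / (X j.down).card) (fun j => avg_mean _ (hXne _))
  refine amenable_of_fun hΛ fun t => hinv t fun f hf => ?_
  obtain ⟨C, hC⟩ := hf
  have hbound : Filter.Tendsto (fun j : J => 2 * C * (1 / ((j.down : ℝ) + 1))) 𝒰 (nhds 0) := by
    have h2 := (tendsto_one_div_add_atTop_nhds_zero_nat (𝕜 := ℝ)).comp htend
    have h3 := h2.const_mul (2 * C)
    rw [mul_zero] at h3
    exact h3
  refine squeeze_zero_norm' ?_ hbound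
  filter_upwards [htend.eventually (Filter.eventually_ge_atTop (L t))] with j hj
  rw [Real.norm_eq_abs]
  refine (avg_diff (X j.down) (hXne _) t hC).trans ?_
  have hC0 : 0 ≤ C := (abs_nonneg _).trans (hC 1)
  have hpos : (0 : ℝ) < (X j.down).card := by exact_mod_cast (hXne j.down).card_pos
  have hj1 : (0 : ℝ) < (j.down : ℝ) + 1 := by positivity
  rw [mul_div_assoc]
  refine mul_le_mul_of_nonneg_left ?_ (by positivity)
  rw [div_le_div_iff₀ hpos hj1, one_mul]
  exact hcard j.down t hj

section graph2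

variable {S : Finset G} {Γ : SimpleGraph G}

lemma card_ball (hS : Subgroup.closure (S : Set G) = ⊤)
    (hΓ : Γ = SimpleGraph.fromRel (fun g h : G => g⁻¹ * h ∈ S)) (n : ℕ) :
    Nat.card {x : G // Γ.dist 1 x ≤ n} = (ball (lenFun hS hΓ) n).card :=
  Nat.subtype_card _ fun _ => mem_ball (lenFun hS hΓ)

/-- the main result: horofunction boundaries of Cayley graphs of groups of exponential growth,
and of nonamenable groups, are uncountable -/
theorem main (G : Type u) [Group G] (S : Finset G) (hS : Subgroup.closure (S : Set G) = ⊤)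
    (Γ : SimpleGraph G) (hΓ : Γ = SimpleGraph.fromRel (fun g h : G => g⁻¹ * h ∈ S))
    (hgrowth : (∃ c C : ℝ, 1 < c ∧
        ∀ n : ℕ, c ^ n ≤ C * (Nat.card {x : G // Γ.dist 1 x ≤ n} : ℝ)) ∨
      ¬ Pool.Agent.PackIndex.IsAmenable G)
    (A : Set (G → ℤ))
    (hA : A = Set.range (fun x : G => fun z : G =>
      ((Γ.dist z x : ℕ) : ℤ) - ((Γ.dist 1 x : ℕ) : ℤ))) :
    ¬ (closure A \ A).Countable := by
  classical
  have hL := lenFun hS hΓ
  have hgrowth' : ∃ c C : ℝ, 1 < c ∧ ∀ n : ℕ, c ^ n ≤ C * ((ball hL n).card : ℝ) := by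
    rcases hgrowth with h | h
    · obtain ⟨c, C, hc, h⟩ := h
      refine ⟨c, C, hc, fun n => ?_⟩
      have := h n
      rwa [card_ball hS hΓ] at this
    · by_contra hcon
      exact h (amenable_of_not_exp hL hcon)
  obtain ⟨c, C, hc, hgrow⟩ := hgrowth'
  have hA' : A = Set.range (bf (fun x : G => Γ.dist 1 x)) := by
    rw [hA]
    congr 1
    funext x z
    show _ = ((Γ.dist 1 (z⁻¹ * x) : ℕ) : ℤ) - ((Γ.dist 1 x : ℕ) : ℤ)
    have := dist_mul hS hΓ z⁻¹ z x
    rw [inv_mul_cancel] at this
    rw [this]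
  rw [hA']
  exact core hL hc hgrow

end graph2

end Pool.Agent.Horo
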