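import Pool.Agent.Horo.Core

/-!
# Groups with countable horofunction boundary are virtually indicable
-/

namespace Pool.Agent.Horo

open Pool.Agent.PackIndex

universe u

variable {G : Type u} [Group G] {L : G → ℕ}

/-- cylinder sets -/
def cyl (L : G → ℕ) (b : G → ℤ) (F : Finset G) : Set G := {x | ∀ z ∈ F, bf L x z = b z}

omit [Group G] in
lemma fadd_mono {m : Set G → ℝ} (m0 : ∀ A, 0 ≤ m A)
    (madd : ∀ A B, Disjoint A B → m (A ∪ B) = m A + m B) : ∀ A B, A ⊆ B → m A ≤ m B := by
  intro A B hAB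
  have h1 := madd A (B \ A) Set.disjoint_sdiff_right
  rw [Set.union_sdiff_cancel hAB] at h1
  linarith [m0 (B \ A)]

lemma exists_atom (hL : LenFun L) {m : Set G → ℝ} (m0 : ∀ A, 0 ≤ m A) (m1 : m Set.univ = 1)
    (madd : ∀ A B, Disjoint A B → m (A ∪ B) = m A + m B)
    (hcount : (closure (Set.range (bf L)) \ Set.range (bf L)).Countable) :
    ∃ b ∈ closure (Set.range (bf L)), ∃ η : ℝ, 0 < η ∧ ∀ F, η ≤ m (cyl L b F) := by
  classical
  -- countability of the closure
  have hGc : Countable G := by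
    have h1 : (Set.univ : Set G) = ⋃ n, {x | L x ≤ n} := by
      ext x
      simp only [Set.mem_univ, Set.mem_iUnion, true_iff]
      exact ⟨L x, by simp⟩
    rw [← Set.countable_univ_iff, h1]
    exact Set.countable_iUnion fun n => (hL.fin n).countable
  have hX : (closure (Set.range (bf L))).Countable := by
    have : closure (Set.range (bf L)) ⊆ (closure (Set.range (bf L)) \ Set.range (bf L))
        ∪ Set.range (bf L) := by
      intro b hb
      by_cases h : b ∈ Set.range (bf L)
      · exact Or.inr h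
      · exact Or.inl ⟨hb, h⟩
    exact (hcount.union (Set.countable_range _)).mono this
  have hcomp : IsCompact (closure (Set.range (bf L))) := by
    have h1 : IsCompact (Set.pi Set.univ fun z : G => Set.Icc (-(L z : ℤ)) (L z)) :=
      isCompact_univ_pi fun z => isCompact_Icc
    refine h1.of_isClosed_subset isClosed_closure ?_
    refine closure_minimal ?_ h1.isClosed
    rintro _ ⟨x, rfl⟩ z _
    exact abs_le.1 (bf_le hL x z)
  have mmono : ∀ A B, A ⊆ B → m A ≤ m B := by
    intro A B hAB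
    have h1 := madd A (B \ A) Set.disjoint_sdiff_right
    rw [Set.union_sdiff_cancel hAB] at h1
    linarith [m0 (B \ A)]
  have mle : ∀ A, m A ≤ 1 := fun A => m1 ▸ mmono A _ (Set.subset_univ A)
  have munion : ∀ A B, m (A ∪ B) ≤ m A + m B := by
    intro A B
    have h1 := madd A (B \ A) Set.disjoint_sdiff_right
    rw [Set.union_sdiff_self] at h1
    linarith [mmono (B \ A) B Set.sdiff_subset]
  have mempty : m ∅ = 0 := by
    have h1 := madd ∅ ∅ (Set.disjoint_empty _)
    rw [Set.union_empty] at h1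
    linarith
  have mbi : ∀ (t : Finset (G → ℤ)) (f : (G → ℤ) → Set G), m (⋃ b ∈ t, f b) ≤ ∑ b ∈ t, m (f b) := by
    intro t f
    induction t using Finset.induction_on with
    | empty => simp [mempty]
    | insert a s ha ih =>
      rw [Finset.set_biUnion_insert, Finset.sum_insert ha]
      exact (munion _ _).trans (add_le_add le_rfl ih)
  -- an atom
  by_contra hcon
  push Not at hcon
  obtain ⟨ε, hε0, hεs⟩ := hX.exists_pos_forall_sum_le (ε := 1 / 2) (by norm_num)
  have hF : ∀ b : G → ℤ, ∃ F : Finset G, b ∈ closure (Set.range (bf L)) → m (cyl L b F) < ε b := by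
    intro b
    by_cases hb : b ∈ closure (Set.range (bf L))
    · obtain ⟨F, hF⟩ := hcon b hb (ε b) (hε0 b)
      exact ⟨F, fun _ => hF⟩
    · exact ⟨∅, fun h => absurd h hb⟩
  choose F hF using hF
  let U : (G → ℤ) → Set (G → ℤ) := fun b => {b' | ∀ z ∈ F b, b' z = b z}
  have hU : ∀ b, IsOpen (U b) := by
    intro b
    have : U b = ⋂ z ∈ F b, (fun b' : G → ℤ => b' z) ⁻¹' {b z} := by
      ext b'
      simp [U]
    rw [this]
    exact isOpen_biInter_finset fun z _ => (isOpen_discrete _).preimage (continuous_apply z)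
  obtain ⟨t, ht, htc⟩ := hcomp.elim_nhds_subcover U
    (fun b _ => (hU b).mem_nhds (fun z _ => rfl))
  have hcov : (Set.univ : Set G) ⊆ ⋃ b ∈ t, cyl L b (F b) := by
    intro x _
    have h1 := htc (subset_closure ⟨x, rfl⟩ : bf L x ∈ closure (Set.range (bf L)))
    obtain ⟨b, hb, hbx⟩ := Set.mem_iUnion₂.1 h1
    exact Set.mem_iUnion₂.2 ⟨b, hb, hbx⟩
  have h1 : (1 : ℝ) ≤ ∑ b ∈ t, m (cyl L b (F b)) := by
    rw [← m1]
    exact (mmono _ _ hcov).trans (mbi t fun b => cyl L b (F b))
  have h2 : ∑ b ∈ t, m (cyl L b (F b)) ≤ ∑ b ∈ t, ε b :=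
    Finset.sum_le_sum fun b hb => (hF b (ht b hb)).le
  have h3 := hεs t (fun b hb => ht b hb)
  linarith

/-- integer valued functions vanishing at `1` -/
def Fn (G : Type u) [Group G] : Type u := {b : G → ℤ // b 1 = 0}

instance : MulAction G (Fn G) where
  smul g b := ⟨fun z => b.1 (g⁻¹ * z) - b.1 g⁻¹, by
    show b.1 (g⁻¹ * 1) - b.1 g⁻¹ = 0
    rw [mul_one, sub_self]⟩
  one_smul b := by
    apply Subtype.ext
    funext z
    show b.1 (1⁻¹ * z) - b.1 1⁻¹ = b.1 z
    rw [inv_one, one_mul, b.2, sub_zero]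
  mul_smul g h b := by
    apply Subtype.ext
    funext z
    show b.1 ((g * h)⁻¹ * z) - b.1 (g * h)⁻¹
      = (b.1 (h⁻¹ * (g⁻¹ * z)) - b.1 h⁻¹) - (b.1 (h⁻¹ * g⁻¹) - b.1 h⁻¹)
    rw [mul_inv_rev, mul_assoc]
    ring

lemma smul_apply (g : G) (b : Fn G) (z : G) : (g • b).1 z = b.1 (g⁻¹ * z) - b.1 g⁻¹ := rfl

lemma bf_one (x : G) : bf L x 1 = 0 := by
  unfold bf
  rw [inv_one, one_mul, sub_self]

lemma bf_inj (hL : LenFun L) {x x₀ : G} (h : bf L x = bf L x₀) : x = x₀ := by
  by_contra hne
  have hne' : x₀⁻¹ * x ≠ 1 := by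
    intro h
    apply hne
    rw [inv_mul_eq_one] at h
    exact h.symm
  have hpos : 1 ≤ L (x₀⁻¹ * x) := by
    by_contra h
    exact hne' (hL.eq_one _ (by omega))
  obtain ⟨y, hy1, hy2⟩ := hL.geo (x₀⁻¹ * x) 1 hpos
  have e1 := congrFun h x₀
  have e2 := congrFun h (x₀ * y)
  unfold bf at e1 e2
  rw [inv_mul_cancel, hL.one] at e1
  have e3 : (x₀ * y)⁻¹ * x = y⁻¹ * (x₀⁻¹ * x) := by group
  have e4 : (x₀ * y)⁻¹ * x₀ = y⁻¹ := by group
  rw [e3, e4, hL.inv, hy1] at e2
  omega

lemma bf_smul (g x z : G) : bf L (g * x) z = bf L x (g⁻¹ * z) - bf L x g⁻¹ := by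
  unfold bf
  have h1 : z⁻¹ * (g * x) = (g⁻¹ * z)⁻¹ * x := by group
  rw [h1, inv_inv]
  ring

omit [Group G] in
/-- finitely many disjoint sets of mass at least `η` -/
lemma card_mul_le {ι : Type*} {m : Set G → ℝ} (m0 : ∀ A, 0 ≤ m A) (m1 : m Set.univ = 1)
    (madd : ∀ A B, Disjoint A B → m (A ∪ B) = m A + m B) {η : ℝ} (t : Finset ι)
    (f : ι → Set G) (hd : ∀ i ∈ t, ∀ j ∈ t, i ≠ j → Disjoint (f i) (f j))
    (hf : ∀ i ∈ t, η ≤ m (f i)) : t.card * η ≤ 1 := by
  classical
  have mempty : m ∅ = 0 := by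
    have h1 := madd ∅ ∅ (Set.disjoint_empty _)
    rw [Set.union_empty] at h1
    linarith
  have key : ∀ s : Finset ι, s ⊆ t → m (⋃ i ∈ s, f i) = ∑ i ∈ s, m (f i) := by
    intro s
    induction s using Finset.induction_on with
    | empty => intro _; simp [mempty]
    | insert a s ha ih =>
      intro hst
      rw [Finset.set_biUnion_insert, Finset.sum_insert ha, madd, ih]
      · exact (Finset.subset_insert _ _).trans hst
      · rw [Set.disjoint_iUnion₂_right]
        intro i hi
        exact hd a (hst (Finset.mem_insert_self _ _)) i (hst (Finset.mem_insert_of_mem hi))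
          (fun h => ha (h ▸ hi))
  have h1 : ∑ i ∈ t, η ≤ ∑ i ∈ t, m (f i) := Finset.sum_le_sum hf
  rw [← key t (Finset.Subset.refl _), Finset.sum_const, nsmul_eq_mul] at h1
  exact h1.trans (m1 ▸ fadd_mono m0 madd _ _ (Set.subset_univ _))

theorem indicable [Infinite G] (hL : LenFun L) (ham : IsAmenable G)
    (hcount : (closure (Set.range (bf L)) \ Set.range (bf L)).Countable) :
    ∃ H : Subgroup G, H.FiniteIndex ∧ ∃ θ : H →* Multiplicative ℤ, θ ≠ 1 := by
  classical
  obtain ⟨m, m0, m1, madd, minv⟩ := ham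
  obtain ⟨b, -, η, hη, hbη⟩ := exists_atom hL m0 m1 madd hcount
  have mempty : m ∅ = 0 := by
    have h1 := madd ∅ ∅ (Set.disjoint_empty _)
    rw [Set.union_empty] at h1
    linarith
  have hne : ∀ F, (cyl L b F).Nonempty := by
    intro F
    by_contra h
    rw [Set.not_nonempty_iff_eq_empty] at h
    have := hbη F
    rw [h, mempty] at this
    linarith
  have hb1 : b 1 = 0 := by
    obtain ⟨x, hx⟩ := hne {1}
    rw [← hx 1 (Finset.mem_singleton_self 1), bf_one]
  let β : Fn G := ⟨b, hb1⟩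
  -- the orbit is finite
  have horb : (MulAction.orbit G β).Finite := by
    by_contra hinf
    obtain ⟨n, hn⟩ := exists_nat_gt (1 / η)
    obtain ⟨t, hts, htc⟩ := Set.Infinite.exists_subset_card_eq hinf n
    have hz : ∀ p : Fn G × Fn G, ∃ z, p.1 ≠ p.2 → p.1.1 z ≠ p.2.1 z := by
      intro p
      by_cases h : p.1 = p.2
      · exact ⟨1, fun h' => absurd h h'⟩
      · by_contra hcon
        push Not at hcon
        exact h (Subtype.ext (funext fun z => (hcon z).2))
    choose z hz using hz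
    let F : Finset G := (t ×ˢ t).image z
    have h1 := card_mul_le (η := η) m0 m1 madd t (fun f => cyl L f.1 F) (by
      intro f hf f' hf' hff'
      rw [Set.disjoint_left]
      intro x hx hx'
      have hzF : z (f, f') ∈ F := Finset.mem_image_of_mem _ (Finset.mem_product.2 ⟨hf, hf'⟩)
      exact hz (f, f') hff' ((hx _ hzF).symm.trans (hx' _ hzF))) (by
      intro f hf
      obtain ⟨g, hg⟩ := hts hf
      have hg' : g • β = f := hg
      have h2 : (fun x => g * x) '' (cyl L b (F.image (fun z => g⁻¹ * z) ∪ {g⁻¹}))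
          ⊆ cyl L f.1 F := by
        rintro _ ⟨x, hx, rfl⟩ z hzF
        show bf L (g * x) z = f.1 z
        rw [bf_smul, hx (g⁻¹ * z) (Finset.mem_union_left _ (Finset.mem_image_of_mem _ hzF)),
          hx g⁻¹ (Finset.mem_union_right _ (Finset.mem_singleton_self _)), ← hg']
        rfl
      calc η ≤ m (cyl L b (F.image (fun z => g⁻¹ * z) ∪ {g⁻¹})) := hbη _
        _ = m ((fun x => g * x) '' (cyl L b (F.image (fun z => g⁻¹ * z) ∪ {g⁻¹}))) :=
          (minv _ _).symm
        _ ≤ _ := fadd_mono m0 madd _ _ h2)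
    rw [htc] at h1
    rw [div_lt_iff₀ hη] at hn
    linarith
  -- the limit is on the boundary
  have hbA : ∀ x, bf L x ≠ b := by
    intro x₀ hx₀
    have hinj : Function.Injective fun g : G => g • β := by
      intro g g' h
      have h1 : bf L (g * x₀) = bf L (g' * x₀) := by
        funext z
        have h2 := congrFun (congrArg Subtype.val h) z
        rw [bf_smul, bf_smul, hx₀]
        exact h2
      exact mul_right_cancel (bf_inj hL h1)
    exact (Set.infinite_range_of_injective hinj) horb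
  have hdeep : ∀ n : ℕ, ∃ g : G, b g = -(n : ℤ) := by
    intro n
    have hz : ∀ x : G, ∃ z, bf L x z ≠ b z := by
      intro x
      by_contra h
      push Not at h
      exact hbA x (funext h)
    choose z hz using hz
    let F : Finset G := ball hL n ∪ (ball hL n).image z
    obtain ⟨x, hx⟩ := hne F
    have hxn : n ≤ L x := by
      by_contra h
      push Not at h
      have h1 : z x ∈ F := Finset.mem_union_right _
        (Finset.mem_image_of_mem _ ((mem_ball hL).2 h.le))
      exact hz x (hx _ h1)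
    obtain ⟨g, hg1, hg2⟩ := hL.geo x n hxn
    refine ⟨g, ?_⟩
    have h1 := hx g (Finset.mem_union_left _ ((mem_ball hL).2 hg1.le))
    rw [← h1]
    unfold bf
    omega
  -- the stabiliser
  let H : Subgroup G := MulAction.stabilizer G β
  have hH : H.FiniteIndex := by
    refine ⟨?_⟩
    rw [MulAction.index_stabilizer]
    intro h0
    rw [Set.ncard_eq_zero horb] at h0
    exact (Set.nonempty_iff_ne_empty.1 ⟨β, MulAction.mem_orbit_self β⟩) h0
  have hmul : ∀ h ∈ H, ∀ z, b (h * z) = b h + b z := by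
    intro h hh z
    have h1 : h⁻¹ • β = β := MulAction.mem_stabilizer_iff.1 (H.inv_mem hh)
    have h2 : b (h⁻¹⁻¹ * z) - b h⁻¹⁻¹ = b z := congrFun (congrArg Subtype.val h1) z
    rw [inv_inv] at h2
    linarith
  refine ⟨H, hH, ⟨⟨fun h => Multiplicative.ofAdd (b h), ?_⟩, ?_⟩, ?_⟩
  · show Multiplicative.ofAdd (b 1) = 1
    rw [hb1]
    rfl
  · intro h h'
    show Multiplicative.ofAdd (b ((h : G) * h')) = _
    rw [hmul h h.2, ofAdd_add]
  · intro hθ
    have h0 : ∀ h ∈ H, b h = 0 := by
      intro h hh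
      have := DFunLike.congr_fun hθ ⟨h, hh⟩
      exact Multiplicative.ofAdd.injective this
    have hfin : (Set.range fun q : G ⧸ H => b (q.out)⁻¹).Finite := Set.finite_range _
    obtain ⟨B, hB⟩ := hfin.bddBelow
    obtain ⟨g, hg⟩ := hdeep (B.natAbs + 1)
    obtain ⟨h, hh⟩ := QuotientGroup.mk_out_eq_mul H g⁻¹
    have h1 := hB ⟨(g⁻¹ : G), rfl⟩
    have h2 : b (((g⁻¹ : G) : G ⧸ H).out)⁻¹ = b g := by
      rw [hh, mul_inv_rev, inv_inv, hmul _ (H.inv_mem h.2), h0 _ (H.inv_mem h.2), zero_add]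
    simp only at h1
    rw [h2, hg] at h1
    omega

/-- a finitely generated infinite group none of whose finite index subgroups maps onto `ℤ` has
uncountable horofunction boundaries -/
theorem main_indicable (G : Type u) [Group G] [Infinite G] (S : Finset G)
    (hS : Subgroup.closure (S : Set G) = ⊤)
    (Γ : SimpleGraph G) (hΓ : Γ = SimpleGraph.fromRel (fun g h : G => g⁻¹ * h ∈ S))
    (hG : ∀ H : Subgroup G, H.FiniteIndex → ∀ θ : H →* Multiplicative ℤ, θ = 1)
    (A : Set (G → ℤ))
    (hA : A = Set.range (fun x : G => fun z : G =>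
      ((Γ.dist z x : ℕ) : ℤ) - ((Γ.dist 1 x : ℕ) : ℤ))) :
    ¬ (closure A \ A).Countable := by
  by_cases ham : IsAmenable G
  · intro hcount
    have hA' : A = Set.range (bf (fun x : G => Γ.dist 1 x)) := by
      rw [hA]
      congr 1
      funext x z
      show _ = ((Γ.dist 1 (z⁻¹ * x) : ℕ) : ℤ) - ((Γ.dist 1 x : ℕ) : ℤ)
      have := dist_mul hS hΓ z⁻¹ z x
      rw [inv_mul_cancel] at this
      rw [this]
    rw [hA'] at hcount
    obtain ⟨H, hH, θ, hθ⟩ := indicable (lenFun hS hΓ) ham hcount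
    exact hθ (hG H hH θ)
  · exact main G S hS Γ hΓ (Or.inr ham) A hA

end Pool.Agent.Horo
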